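import Pool.Agent.H937R3.CentreProducts

/-!
# MP_67b4ec_an: the square of the radical of `ℓ¹(G)''` is not zero if `G` has infinite centre

`H937R3.EllOne G` is the Banach algebra `ℓ¹(G)` of a discrete group `G` (Mathlib's
`lp (fun _ : G => ℂ) 1` with the convolution product), `H937R3.Bidual A` is the second dual `A''`
of a normed algebra `A` with the first Arens product, and `Ring.jacobson` is Mathlib's Jacobson
radical of a ring.

Let `G` be a group with infinite centre, for instance `ℤ` or any other infinite commutative group.
There are `Φ, Ψ` in the Jacobson radical of `(ℓ¹(G)'', □)` with `Φ □ Ψ ≠ 0`.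

Proof.  In the centre choose finite sets `W_0, W_1, …` with at least `r_k = 4 · 2 ^ k` elements,
containing `1` and a further element `x_k` under which they are almost invariant
(`|x_k W_k \ W_k| ≤ |W_k| / r_k`), such that all products `u_0 u_1 ⋯ u_n`, `u_i ∈ W_i`, are
different: powers of an element, or finite subgroups of prime exponent.  Put
`w_k = |W_k|⁻¹ ∑_{u ∈ W_k} δ_u` and, for `s = 0, 1`, `a_n = (1 - δ_{x_{2n+s}}) ∏_{i < n} w_{2i+s}`.
Then `‖a_n a_m‖ ≤ 4 / r_{2n+s}` for `n < m`, and `a_n` is central, so a weak-* cluster point `z` of
`(a_n)` satisfies `z □ c □ z = 0` for all `c` and lies in the radical.  If `F` is the indicator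
function of the set of the products `u_0 ⋯ u_n` with all `u_i ≠ x_i`, then `F` is multiplicative on
products over distinct positions, and `F (a_n b_m) ≥ 1/2` for the two sequences (`s = 0` and
`s = 1`), so the product of the two cluster points is not zero.
-/

namespace Pool.Agent.Results.MP_67b4ec_an.InfiniteCentre

open H937R3

/-- If the centre of the discrete group `G` is infinite, there are two elements of the Jacobson
radical of `ℓ¹(G)''` (first Arens product) whose product is not zero. -/
theorem result (G : Type*) [DecidableEq G] [Group G] (hG : (Set.center G).Infinite) :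
    ∃ Φ Ψ : Bidual (EllOne G),
      Φ ∈ Ring.jacobson (Bidual (EllOne G)) ∧ Ψ ∈ Ring.jacobson (Bidual (EllOne G)) ∧
      Φ * Ψ ≠ 0 :=
  exists_radical_mul_ne_zero_of_infinite_center G hG

end Pool.Agent.Results.MP_67b4ec_an.InfiniteCentre
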